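import Pool.Agent.MP_ac6554_pr.Four.Main

set_option autoImplicit false

open MeasureTheory ProbabilityTheory TopologicalSpace Metric Set Filter Topology
open Pool.Agent.MP_ac6554_pr

namespace Pool.Agent.MP_ac6554_pr.Old.TwoPointAtFour

/-- For `κ = 4` a Gaussian nesting field has symmetric two-point weights. -/
theorem result (Ω : Type) [MeasurableSpace Ω] (P : Measure Ω) [IsProbabilityMeasure P]
    (V : ℕ → Ω → Opens ℂ) (hV : IsCLE 4 P V)
    (D : Opens ℂ) (F : ℂ → ℂ) (hF : Conf F D)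
    (μ : Measure ℝ) [IsProbabilityMeasure μ] (hμ : MemLp id 2 μ)
    (h : Ω × (ℕ → ℝ) → Distribution D ℝ ⊤)
    (hlim : ∀ φ : TestFunction D ℝ ⊤, ∀ᵐ p ∂(P.prod (Measure.infinitePi fun _ : ℕ => μ)),
      Tendsto (fun ε : ℝ => ∫ z, centred P V μ F p z ε * φ z) (𝓝[>] 0) (𝓝 (h p φ)))
    (hG : IsGaussianProcess (fun (φ : TestFunction D ℝ ⊤) p => h p φ)
      (P.prod (Measure.infinitePi fun _ : ℕ => μ))) :
    ∃ c : ℝ, 0 ≤ c ∧ μ = (2⁻¹ : ENNReal) • (Measure.dirac c + Measure.dirac (-c)) :=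
  Four.main4 hV hF μ hμ h hlim fun φ => hG.hasGaussianLaw_eval φ

end Pool.Agent.MP_ac6554_pr.Old.TwoPointAtFour
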